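import Pool.Agent.H76.HMS.ExStmts

/-!
# HMS, box 3, module ENS: one step of the exploration
-/

set_option autoImplicit false

namespace Pool.HMS

open TMLib Finset

theorem ens_aux_isI_sum {s : Finset ℕ} {f : ℕ → ℚ} (h : ∀ i ∈ s, IsI (f i)) : IsI (∑ i ∈ s, f i) := by
  classical
  induction s using Finset.induction_on with
  | empty => exact ⟨0, by simp⟩
  | insert a s ha ih =>
    rw [Finset.sum_insert ha]
    obtain ⟨z1, h1⟩ := h a (Finset.mem_insert_self a s)
    obtain ⟨z2, h2⟩ := ih fun i hi => h i (Finset.mem_insert_of_mem hi)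
    exact ⟨z1 + z2, by rw [h1, h2]; push_cast; rfl⟩

theorem ens_aux_isI_mul {p q : ℚ} (hp : IsI p) (hq : IsI q) : IsI (p * q) := by
  obtain ⟨z1, h1⟩ := hp
  obtain ⟨z2, h2⟩ := hq
  exact ⟨z1 * z2, by rw [h1, h2]; push_cast; rfl⟩

theorem ens_thm (hEAP : S_EAP) (hESL : S_ESL) (hEKL : S_EKL) (hEOR : S_EOR) (hESZ : S_ESZ)
    (hEGR : S_EGR) (hETH : S_ETH) : S_ENS := by
  intro α wd cr O rnd a D b C w B K x hgood hBI hB2 hK hO hC hw hwb hb hok hsem
  obtain ⟨e, N, Bx⟩ := x
  obtain ⟨A1, A2, A3, A4, A5, A6, A7, A8, A9⟩ := hEAP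
  have hbB := hok.bB
  have hint := hok.int
  have hintB := hok.intB
  have htwo := hok.two
  have hle : e ≤ D := hok.le
  simp only at hbB hint hintB htwo
  rcases Nat.eq_zero_or_pos e with he | he
  · -- dimension zero
    subst he
    have hexn : exNode O rnd (a, D, B, b) (0, N, Bx) =
        ([], if (O a (app D 0 N [])).isNone then [app D 0 N []] else []) := by
      simp [exNode]
    rw [hexn]
    have hfn0 : fn ([] : Vec) = fun _ => 0 := by
      funext i; simp [fn]
    have hLat0 : Lat 0 (fn ([] : Vec)) := by
      rw [hfn0]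
      exact ⟨fun i _ => rfl, fun i => ⟨0, by simp⟩⟩
    refine ⟨by simp, ?_, fun _ => rfl, by simp, ?_, ?_⟩
    · simp only
      split_ifs <;> simp
    · intro v hv
      simp only at hv
      split_ifs at hv with hN
      · rw [List.mem_singleton] at hv
        subst hv
        have hlen := A2 D 0 N ([] : Vec)
        refine ⟨hlen, ?_, ?_⟩
        · rw [A1]
          exact A9 D 0 N _ hint hLat0
        · apply (hO _ hlen).1
          exact Option.isNone_iff_eq_none.1 hN
      · simp at hv
    · intro z hz hzK
      left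
      have hz0 : z = fn ([] : Vec) := by
        rw [hfn0]; funext i; exact hz.1 i (Nat.zero_le i)
      subst hz0
      simp only at hzK ⊢
      have hlen := A2 D 0 N ([] : Vec)
      have hnone : O a (app D 0 N []) = none := by
        rcases hcase : O a (app D 0 N []) with _ | s
        · rfl
        · exfalso
          have := (hO _ hlen).2 s hcase
          rw [A1] at this
          exact absurd (this.1 _ hzK) (not_le.2 this.2)
      refine ⟨app D 0 N [], by simp [hnone], ?_⟩
      rw [A1]
      simpa using hzK
  · -- positive dimension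
    have he0 : e ≠ 0 := by omega
    have hconv : Convex ℚ (preK D e N K) := hEOR.2 D e N K hK
    have horc : IsOracle e (preK D e N K) (preO O (a, D, N)) := hEOR.1 O a D e N K hO
    have hbox : ∀ y ∈ preK D e N K, Box e Bx y := hsem
    have hr := hgood (a, D, N) e Bx (preK D e N K) he hintB htwo hconv hbox horc
    set r : RRes := rnd ((a, D, N), e, Bx) with hrdef
    have hmemK : ∀ z, Supp e z → (z ∈ preK D e N K ↔ appF D e N z ∈ K) := fun z hz =>
      ⟨fun h => h.2, fun h => ⟨hz, h⟩⟩
    by_cases hth : r.1.1 = true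
    · -- thick
      have hexn : exNode O rnd (a, D, B, b) (e, N, Bx) = ([], [app D e N r.1.2]) := by
        unfold exNode
        simp only [he0, if_false]
        rw [← hrdef, if_pos hth]
      rw [hexn]
      obtain ⟨hlen, hlat, hcert⟩ := hr.thick_spec hth
      have hE := hETH e (preK D e N K) (fn r.1.2) he hconv hlat (fun y hy => hy.1) hcert
      refine ⟨by simp, by simp, fun _ => rfl, by simp, ?_, ?_⟩
      · intro v hv
        simp only [List.mem_singleton] at hv
        subst hv
        refine ⟨A2 _ _ _ _, ?_, ?_⟩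
        · rw [A1]; exact A9 D e N _ hint hlat
        · rw [A1]; exact hE.1.2
      · intro z hz hzK
        left
        simp only at hz hzK ⊢
        refine ⟨app D e N r.1.2, by simp, ?_⟩
        have := (hE.2 D hle z ⟨hz.1, hzK⟩).2
        rw [A8] at this
        rw [A1]
        exact this
    · -- flat
      have hfl : r.1.1 = false := by
        rcases h : r.1.1 with _ | _
        · rfl
        · exact absurd h hth
      have hexn : exNode O rnd (a, D, B, b) (e, N, Bx) =
          ((kids b (e, N, Bx) r).filter fun y => decide (sz y ≤ b * sz (D, B)), []) := by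
        unfold exNode
        simp only [he0, if_false]
        rw [← hrdef, if_neg hth]
      rw [hexn]
      have huni := hr.uni hfl
      have hgrow := hr.growth hfl
      have hk0 := hr.int0 hfl
      have hk1 := hr.int1 hfl
      have hbd := hr.bound hfl
      have hwid := hr.width hfl
      have hfs := hr.flat_spec hfl
      have hwe := hw e hle
      have hk01 : r.2.2.2 - r.2.2.1 < b := by
        have : ((wd e : ℕ) : ℚ) < (b : ℚ) := by exact_mod_cast (by omega : wd e < b)
        linarith
      obtain ⟨hkmem, hklen⟩ := hEKL b r.2.2.1 r.2.2.2 hk0 hk1 hk01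
      have hC1 : cr e + 2 * D + 5 ≤ C := hC e hle
      have hEG := hEGR cr C D b B (e, N, Bx) r hBI hB2 hok he hC1 huni hgrow hk0 hbd.1 hbd.2
      obtain ⟨L1, L2, L3⟩ := hESL e r.2.1.1 r.2.1.2 he huni
      have hkidsmem : ∀ y, y ∈ kids b (e, N, Bx) r ↔ ∃ k ∈ kList b r.2.2.1 r.2.2.2,
          (e - 1, N.map (pull e (e - 1) (slice e r.2.1.1 k)), newB e r.2.1.2 Bx) = y := by
        intro y
        unfold kids
        simp only [List.mem_map]
      refine ⟨?_, by simp, fun h => absurd h he0, ?_, by simp, ?_⟩
      · simp only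
        refine (List.length_filter_le _ _).trans ?_
        have : (kids b (e, N, Bx) r).length = (kList b r.2.2.1 r.2.2.2).length := by
          unfold kids; simp
        rw [this]
        have h1 : ((kList b r.2.2.1 r.2.2.2).length : ℚ) ≤ (w : ℚ) := by
          refine hklen.trans (max_le (by positivity) ?_)
          have h2 : ((wd e : ℕ) : ℚ) + 1 ≤ (w : ℚ) := by exact_mod_cast hwe
          linarith
        exact_mod_cast h1
      · intro y hy
        simp only [List.mem_filter] at hy
        have hyk := hy.1
        obtain ⟨hy1, hy2⟩ := hEG y hyk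
        refine ⟨hy1, ?_, hy2⟩
        obtain ⟨k, hk, rfl⟩ := (hkidsmem y).1 hyk
        intro y' hy'
        simp only at hy' ⊢
        obtain ⟨hs, hyK⟩ := hy'
        rw [A6] at hyK
        have hb1 : Box e Bx (appF e (e - 1) (slice e r.2.1.1 k) y') :=
          hbox _ ⟨A5 _ _ _ _, hyK⟩
        exact L2 k Bx y' (by linarith) hs hb1
      · intro z hz hzK
        right
        simp only at hz hzK ⊢
        have hzpre : z ∈ preK D e N K := ⟨hz.1, hzK⟩
        obtain ⟨hkl, hku⟩ := hfs z hzpre hz
        have hkI : IsI (∑ c ∈ range e, ent r.2.1.2 (e - 1) c * z c) := by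
          apply ens_aux_isI_sum
          intro i _
          exact ens_aux_isI_mul (huni.intW _ _) (hz.2 i)
        set k := ∑ c ∈ range e, ent r.2.1.2 (e - 1) c * z c with hkdef
        obtain ⟨x', hx'L, hx'⟩ := L1 z hz
        rw [← hkdef] at hx'
        have hyk : (e - 1, N.map (pull e (e - 1) (slice e r.2.1.1 k)), newB e r.2.1.2 Bx) ∈
            kids b (e, N, Bx) r := (hkidsmem _).2 ⟨k, (hkmem k).2 ⟨hkI, hkl, hku⟩, rfl⟩
        refine ⟨(e - 1, N.map (pull e (e - 1) (slice e r.2.1.1 k)), newB e r.2.1.2 Bx), ?_, x',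
          ?_, ?_⟩
        · rw [List.mem_filter]
          refine ⟨hyk, ?_⟩
          rw [decide_eq_true_iff]
          have hs := hESZ C D B _ (by omega) hBI hB2 (hEG _ hyk).1
          exact hs.trans (Nat.mul_le_mul_right _ hb)
        · exact hx'L
        · simp only
          rw [A6, hx']

end Pool.HMS
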