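import Pool.Agent.H76.HMS.ExStmts

/-!
# HMS, box 3, module ETH
-/

set_option autoImplicit false

namespace Pool.HMS

open TMLib Finset

theorem eth_thm : S_ETH := by
  intro e K z he hK hz hsupp hT
  obtain ⟨G, h1, h2, h3, -, h5⟩ := hT
  have heq : (1 : ℚ) ≤ e := by exact_mod_cast he
  have hR : 0 < RD e := by unfold RD; positivity
  have hRe : 0 < RD e * ((e : ℚ) + 1) := by positivity
  have hrho : rhoD e = 1 / (RD e * ((e : ℚ) + 1)) / 5 := by
    unfold rhoD; field_simp
  have htau0 : tauD e = 1 / (RD e * ((e : ℚ) + 1)) / 2 := by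
    unfold tauD; field_simp
  have hthr : (1 - 1 / RD e) / ((e : ℚ) + 1) = 1 / ((e : ℚ) + 1) - 1 / (RD e * ((e : ℚ) + 1)) := by
    field_simp
  have hu : 0 < 1 / (RD e * ((e : ℚ) + 1)) := by positivity
  have hR1 : 1 ≤ RD e := by
    unfold RD
    have : (0 : ℚ) ≤ 8 * (e : ℚ) ^ 3 := by positivity
    linarith
  have hule : 1 / (RD e * ((e : ℚ) + 1)) ≤ 1 / ((e : ℚ) + 1) := by
    apply one_div_le_one_div_of_le (by positivity)
    nlinarith
  set u : ℚ := 1 / (RD e * ((e : ℚ) + 1)) with hudef
  have hgz : ∀ j ∈ range (e + 1), 1 / ((e : ℚ) + 1) - u / 5 ≤ aff e (G j) z := by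
    intro j hj
    have := (abs_le.1 (h5 j hj)).1
    rw [hrho] at this
    linarith
  refine ⟨?_, ?_⟩
  · apply h3 z hz.1
    intro j hj
    rw [hthr]
    have := hgz j hj
    linarith
  · intro D hD x hx
    have htauD : tauD D ≤ tauD e := by
      unfold tauD RD
      have hDe : (e : ℚ) ≤ D := by exact_mod_cast hD
      apply one_div_le_one_div_of_le (by positivity)
      have h3 : (e : ℚ) ^ 3 ≤ (D : ℚ) ^ 3 := by gcongr
      gcongr
    have htauD0 : 0 ≤ tauD D := by unfold tauD RD; positivity
    apply h3
    · intro i hi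
      have ha := hz.1 i hi
      have hb := hsupp x hx i hi
      simp [ha, hb]
    · intro j hj
      have hlin : aff e (G j) (fun i => z i + tauD D * (z i - x i)) =
          aff e (G j) z + tauD D * (aff e (G j) z - aff e (G j) x) := by
        unfold aff
        have : ∑ i ∈ range e, G j (i + 1) * (z i + tauD D * (z i - x i)) =
            ∑ i ∈ range e, G j (i + 1) * z i +
              tauD D * (∑ i ∈ range e, G j (i + 1) * z i - ∑ i ∈ range e, G j (i + 1) * x i) := by
          rw [← Finset.sum_sub_distrib, Finset.mul_sum, ← Finset.sum_add_distrib]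
          apply Finset.sum_congr rfl
          intro i _
          ring
        rw [this]; ring
      rw [hlin, hthr]
      have hx1 : aff e (G j) x ≤ 1 := by
        rw [← h1 x]
        exact Finset.single_le_sum (fun k hk => h2 x hx k hk) hj
      have hg := hgz j hj
      have hinv : 0 < 1 / ((e : ℚ) + 1) := by positivity
      have hgz0 : 0 ≤ aff e (G j) z := by linarith
      have h6 : tauD D ≤ u / 2 := by rw [← htau0]; exact htauD
      nlinarith
end Pool.HMS
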