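import Pool.Agent.H91.HMS.RLib
import Pool.Agent.H29.HMS.HCL

/-!
# HMS, box 5, module HOR: the oracle for the separators is correct
-/

set_option autoImplicit false

namespace Pool.HMS

open Finset TMLib

theorem hor_lin_comm (n : ℕ) (s x : ℕ → ℚ) : lin n s x = lin n x s := by
  unfold lin
  exact Finset.sum_congr rfl fun i _ => mul_comm _ _

/-- `w.(x,1)` -/
theorem hor_lin_hom (n : ℕ) (w x : ℕ → ℚ) : lin (n + 1) w (hom n x) = lin n w x + w n := by
  unfold lin
  rw [Finset.sum_range_succ]
  congr 1
  · apply Finset.sum_congr rfl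
    intro i hi
    rw [Finset.mem_range] at hi
    simp [hom, hi]
  · simp [hom]

theorem hor_aff_hrow0 (n : ℕ) (p : Vec) (w : ℕ → ℚ) :
    aff (n + 1) (fn (tab (n + 2) fun c => if c = 0 then -1 else - fn p (c - 1))) w =
      -1 - lin (n + 1) w (fn p) := by
  unfold aff lin
  rw [fn_tab, if_pos (by omega), if_pos rfl, sub_eq_add_neg, ← Finset.sum_neg_distrib]
  congr 1
  apply Finset.sum_congr rfl
  intro i hi
  rw [Finset.mem_range] at hi
  rw [fn_tab, if_pos (by omega), if_neg (by omega)]
  simp only [Nat.add_sub_cancel]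
  ring

theorem hor_aff_hrow (n i : ℕ) (hi : i < n + 1) (B0 e : ℚ) (w : ℕ → ℚ) :
    aff (n + 1) (fn (tab (n + 2) fun c => if c = 0 then B0 else if c = i + 1 then e else 0)) w =
      B0 + e * w i := by
  unfold aff
  rw [fn_tab, if_pos (by omega), if_pos rfl]
  congr 1
  rw [Finset.sum_eq_single i]
  · rw [fn_tab, if_pos (by omega), if_neg (by omega), if_pos rfl]
  · intro j hj hji
    rw [Finset.mem_range] at hj
    rw [fn_tab, if_pos (by omega), if_neg (by omega), if_neg (by omega), zero_mul]
  · intro h
    exact absurd (Finset.mem_range.2 hi) h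

theorem hor_mem_hullRows (n : ℕ) (B0 : ℚ) (p : Vec) (w : ℕ → ℚ) :
    (∀ r ∈ hullRows n B0 p, 0 ≤ aff (n + 1) (fn r) w) ↔
      lin (n + 1) w (fn p) ≤ -1 ∧ ∀ i < n + 1, |w i| ≤ B0 := by
  unfold hullRows
  constructor
  · intro h
    refine ⟨?_, ?_⟩
    · have h1 := h _ (List.mem_cons_self ..)
      rw [hor_aff_hrow0] at h1
      linarith
    · intro i hi
      have h2 := h _ (List.mem_cons_of_mem _ (List.mem_append_left _
        (List.mem_map.2 ⟨i, List.mem_range.2 hi, rfl⟩)))
      have h3 := h _ (List.mem_cons_of_mem _ (List.mem_append_right _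
        (List.mem_map.2 ⟨i, List.mem_range.2 hi, rfl⟩)))
      rw [hor_aff_hrow n i hi] at h2 h3
      rw [abs_le]
      constructor <;> linarith
  · rintro ⟨h1, h2⟩ r hr
    rw [List.mem_cons, List.mem_append, List.mem_map, List.mem_map] at hr
    rcases hr with rfl | ⟨i, hi, rfl⟩ | ⟨i, hi, rfl⟩
    · rw [hor_aff_hrow0]; linarith
    · have hi' := List.mem_range.1 hi
      rw [hor_aff_hrow n i hi']
      have := (abs_le.1 (h2 i hi')).1
      linarith
    · have hi' := List.mem_range.1 hi
      rw [hor_aff_hrow n i hi']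
      have := (abs_le.1 (h2 i hi')).2
      linarith

theorem hor_aff_cut (n : ℕ) (w : Vec) (x : ℕ → ℚ) :
    aff n (fn (cutRow n w)) x = - (clr w * lin (n + 1) (fn w) (hom n x)) - 1 := by
  rw [hor_lin_hom]
  unfold aff lin cutRow
  rw [fn_tab, if_pos (by omega), if_pos rfl]
  have : ∑ i ∈ range n, fn (tab (n + 1) fun c => if c = 0 then - (clr w * fn w n) - 1
      else - (clr w * fn w (c - 1))) (i + 1) * x i = - (clr w * ∑ i ∈ range n, fn w i * x i) := by
    rw [Finset.mul_sum, ← Finset.sum_neg_distrib]
    apply Finset.sum_congr rfl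
    intro i hi
    rw [Finset.mem_range] at hi
    rw [fn_tab, if_pos (by omega), if_neg (by omega)]
    simp only [Nat.add_sub_cancel]
    ring
  rw [this]
  ring

theorem hor_aff_homRow (n : ℕ) (v : Vec) (x : ℕ → ℚ) :
    aff (n + 1) (fn (homRow n v)) x = lin (n + 1) x (hom n (fn v)) := by
  rw [hor_lin_hom]
  unfold aff homRow
  rw [fn_tab, if_pos (by omega), if_pos rfl, zero_add, Finset.sum_range_succ]
  congr 1
  · unfold lin
    apply Finset.sum_congr rfl
    intro i hi
    rw [Finset.mem_range] at hi
    rw [fn_tab, if_pos (by omega), if_neg (by omega), if_neg (by omega)]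
    simp only [Nat.add_sub_cancel]
    ring
  · rw [fn_tab, if_pos (by omega), if_neg (by omega), if_pos rfl, one_mul]

theorem hor_thm (hPOR : S_POR) : S_HOR := by
  intro ip n rows B b p hBI hB2 hp hbox hip
  have hB0 : (0 : ℚ) ≤ sepB n B := by unfold sepB; positivity
  have hmem : ∀ w : ℕ → ℚ, w ∈ SepSet n rows (sepB n B) p ↔
      (Supp (n + 1) w ∧ (∀ r ∈ hullRows n (sepB n B) p, 0 ≤ aff (n + 1) (fn r) w)) ∧
        ∀ x ∈ LP n rows, 0 ≤ lin (n + 1) w (hom n x) := by
    intro w
    rw [hor_mem_hullRows]
    constructor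
    · rintro ⟨h1, h2, h3, h4⟩
      exact ⟨⟨h1, h3, fun i _ => h2 i⟩, h4⟩
    · rintro ⟨⟨h1, h3, h2⟩, h4⟩
      refine ⟨h1, fun i => ?_, h3, h4⟩
      by_cases hi : i < n + 1
      · exact h2 i hi
      · rw [h1 i (by omega), abs_zero]; exact hB0
  have hsep1 : 2 ≤ ((n : ℚ) + 1) * B := by
    have : (0 : ℚ) ≤ n := Nat.cast_nonneg n
    nlinarith
  refine ⟨?_, ?_, ?_, ?_, ?_⟩
  · -- the oracle
    intro q hq
    have hpoly := hPOR.1 (n + 1) (hullRows n (sepB n B) p) q hq
    have hsuppq : Supp (n + 1) (fn q) := supp_fn hq.le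
    unfold hullO
    simp only
    rcases hcase : polyO (hullRows n (sepB n B) p) q with _ | r
    · simp only
      have hq1 : fn q ∈ Poly (n + 1) (hullRows n (sepB n B) p) := hpoly.1 hcase
      have hclr := hcl_thm q
      have hbox' : ∀ x ∈ Poly n (rows ++ [cutRow n q]), Box n B x := by
        intro x hx
        exact hbox x ⟨hx.1, fun r hr => hx.2 r (List.mem_append_left _ hr)⟩
      obtain ⟨hip1, hip2⟩ := hip _ hbox'
      constructor
      · intro hnone
        rw [Option.map_eq_none_iff] at hnone
        have hno := hip1 hnone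
        rw [hmem]
        refine ⟨hq1, ?_⟩
        intro x hx
        by_contra hneg
        rw [not_le] at hneg
        apply hno x
        refine ⟨hx.1, hx.2.1, ?_⟩
        intro r hr
        rw [List.mem_append, List.mem_singleton] at hr
        rcases hr with hr | rfl
        · exact hx.2.2 r hr
        · rw [hor_aff_cut]
          have hI : IsI (clr q * lin (n + 1) (fn q) (hom n x)) := by
            rw [hor_lin_hom, mul_add]
            apply IsI.add
            · unfold lin
              rw [Finset.mul_sum]
              apply IsI.sum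
              intro i _
              rw [← mul_assoc]
              exact (hclr.2.2.1 i).mul (hx.1.2 i)
            · exact hclr.2.2.1 n
          obtain ⟨m, hm⟩ := hI
          rw [hm]
          have h1 : clr q * lin (n + 1) (fn q) (hom n x) < 0 :=
            mul_neg_of_pos_of_neg hclr.1 hneg
          rw [hm] at h1
          have h2 : m ≤ -1 := by
            have : m < 0 := by exact_mod_cast h1
            omega
          have h3 : (m : ℚ) ≤ -1 := by exact_mod_cast h2
          linarith
      · intro s hs
        rw [Option.map_eq_some_iff] at hs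
        obtain ⟨v, hv, rfl⟩ := hs
        obtain ⟨hvl, hvLP⟩ := hip2 v hv
        constructor
        · intro x hx
          rw [hor_aff_homRow]
          apply hx.2.2.2
          exact ⟨hvLP.1, hvLP.2.1, fun r hr => hvLP.2.2 r (List.mem_append_left _ hr)⟩
        · rw [hor_aff_homRow]
          have h1 := hvLP.2.2 (cutRow n q) (List.mem_append_right _ (List.mem_singleton.2 rfl))
          rw [hor_aff_cut] at h1
          have h2 : clr q * lin (n + 1) (fn q) (hom n (fn v)) < 0 := by linarith
          by_contra h3
          rw [not_lt] at h3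
          have := mul_nonneg hclr.1.le h3
          linarith
    · simp only
      constructor
      · intro h; cases h
      · intro s hs
        rw [Option.some.injEq] at hs
        subst hs
        obtain ⟨h1, h2⟩ := hpoly.2 r hcase
        refine ⟨fun x hx => h1 x ?_, h2⟩
        exact ((hmem x).1 hx).1
  · -- convexity
    intro x hx y hy a c ha hc hac
    have hlin : ∀ s : ℕ → ℚ, lin (n + 1) (a • x + c • y) s = a * lin (n + 1) x s +
        c * lin (n + 1) y s := by
      intro s
      unfold lin
      rw [Finset.mul_sum, Finset.mul_sum, ← Finset.sum_add_distrib]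
      apply Finset.sum_congr rfl
      intro i _
      simp only [Pi.add_apply, Pi.smul_apply, smul_eq_mul]
      ring
    refine ⟨?_, ?_, ?_, ?_⟩
    · intro i hi
      simp only [Pi.add_apply, Pi.smul_apply, smul_eq_mul, hx.1 i hi, hy.1 i hi]
      ring
    · intro i
      simp only [Pi.add_apply, Pi.smul_apply, smul_eq_mul]
      have h1 := abs_le.1 (hx.2.1 i)
      have h2 := abs_le.1 (hy.2.1 i)
      rw [abs_le]
      constructor <;> nlinarith
    · rw [hlin]
      have h1 := hx.2.2.1
      have h2 := hy.2.2.1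
      nlinarith
    · intro z hz
      rw [hlin]
      exact add_nonneg (mul_nonneg ha (hx.2.2.2 z hz)) (mul_nonneg hc (hy.2.2.2 z hz))
  · intro x hx
    exact ⟨hx.1, hx.2.1⟩
  · unfold sepB
    apply IsI.pow
    apply IsI.mul _ hBI
    have := IsI.nat (n + 1)
    push_cast at this
    exact this
  · unfold sepB
    calc (2 : ℚ) ≤ (((n : ℚ) + 1) * B) ^ 1 := by rw [pow_one]; exact hsep1
      _ ≤ (((n : ℚ) + 1) * B) ^ (n + 1) := by
        apply pow_le_pow_right₀ (by linarith) (by omega)

end Pool.HMS
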